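import Pool.Agent.Helper26.PL.PD

/-!
MP_fcb106_co, row PA4a: the test of a step is computable.
-/

set_option autoImplicit false

namespace Pool.Agent.Helper83.PL

open Finset
open Pool.Agent.Helper33.DP
open Pool.Agent.Helper26.PL

/-! ### closure properties of computable predicates -/

section closure

variable {α β : Type} [Primcodable α] [Primcodable β]

theorem cp_const (q : Prop) : ComputablePred (fun _ : α => q) := by
  classical
  exact ⟨fun _ => inferInstance, Computable.const _⟩

theorem cp_and {p q : α → Prop} (hp : ComputablePred p) (hq : ComputablePred q) :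
    ComputablePred (fun a => p a ∧ q a) := by
  classical
  have h : Computable (fun a => (decide (p a) && decide (q a))) :=
    Primrec.and.to_comp.comp hp.decide hq.decide
  exact Computable.computablePred (h.of_eq (fun a => by simp))

theorem cp_not {p : α → Prop} (hp : ComputablePred p) : ComputablePred (fun a => ¬ p a) :=
  ComputablePred.not hp

theorem cp_or {p q : α → Prop} (hp : ComputablePred p) (hq : ComputablePred q) :
    ComputablePred (fun a => p a ∨ q a) :=
  (cp_not (cp_and (cp_not hp) (cp_not hq))).of_eq (fun a => by tauto)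

theorem cp_imp {p q : α → Prop} (hp : ComputablePred p) (hq : ComputablePred q) :
    ComputablePred (fun a => p a → q a) :=
  (cp_or (cp_not hp) hq).of_eq (fun a => by tauto)

theorem cp_iff {p q : α → Prop} (hp : ComputablePred p) (hq : ComputablePred q) :
    ComputablePred (fun a => p a ↔ q a) :=
  (cp_and (cp_imp hp hq) (cp_imp hq hp)).of_eq (fun a => by tauto)

theorem cp_comp {p : β → Prop} {f : α → β} (hp : ComputablePred p) (hf : Computable f) :
    ComputablePred (fun a => p (f a)) := by
  classical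
  exact Computable.computablePred (hp.decide.comp hf)

theorem cp_eq {f g : α → β} (hf : Computable f) (hg : Computable g) :
    ComputablePred (fun a => f a = g a) := by
  classical
  have h : PrimrecPred (fun t : β × β => t.1 = t.2) := Primrec.eq
  exact cp_comp h.computablePred (hf.pair hg)

theorem cp_all {ι : Type} [Finite ι] {p : ι → α → Prop} (hp : ∀ i, ComputablePred (p i)) :
    ComputablePred (fun a => ∀ i, p i a) := by
  classical
  have := Fintype.ofFinite ι
  have key : ∀ s : Finset ι, ComputablePred (fun a => ∀ i ∈ s, p i a) := by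
    intro s
    induction s using Finset.induction_on with
    | empty => exact (cp_const True).of_eq (fun a => by simp)
    | insert i s hi ih => exact (cp_and (hp i) ih).of_eq (fun a => by simp)
  exact (key Finset.univ).of_eq (fun a => by simp)

theorem cp_ex {ι : Type} [Finite ι] {p : ι → α → Prop} (hp : ∀ i, ComputablePred (p i)) :
    ComputablePred (fun a => ∃ i, p i a) :=
  (cp_not (cp_all (fun i => cp_not (hp i)))).of_eq (fun a => by simp)

/-- A predicate that depends on finite data only. -/
theorem cp_fin {D : Type} [Finite D] {d : α → D} (h : ∀ v, ComputablePred (fun a => d a = v))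
    (F : D → Prop) : ComputablePred (fun a => F (d a)) :=
  (cp_ex (fun v : D => cp_and (h v) (cp_const (F v)))).of_eq (fun a => by
    constructor
    · rintro ⟨v, rfl, hv⟩
      exact hv
    · intro hv
      exact ⟨_, rfl, hv⟩)

theorem cp_fin1 {w : ℕ} {f : α → Fin w → Prop} (h : ∀ i, ComputablePred (fun a => f a i))
    (v : Fin w → Prop) : ComputablePred (fun a => f a = v) :=
  (cp_all (fun i => cp_iff (h i) (cp_const (v i)))).of_eq (fun a => by
    constructor
    · intro H
      funext i
      exact propext (H i)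
    · rintro rfl i
      exact Iff.rfl)

theorem cp_fin2 {w : ℕ} {f : α → Fin w → Fin w → Prop}
    (h : ∀ i j, ComputablePred (fun a => f a i j))
    (v : Fin w → Fin w → Prop) : ComputablePred (fun a => f a = v) :=
  (cp_all (fun i => cp_all (fun j => cp_iff (h i j) (cp_const (v i j))))).of_eq (fun a => by
    constructor
    · intro H
      funext i j
      exact propext (H i j)
    · rintro rfl i j
      exact Iff.rfl)

theorem cp_pair {D E : Type} {d : α → D} {e : α → E} (hd : ∀ v, ComputablePred (fun a => d a = v))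
    (he : ∀ v, ComputablePred (fun a => e a = v)) (v : D × E) :
    ComputablePred (fun a => (d a, e a) = v) :=
  (cp_and (hd v.1) (he v.2)).of_eq (fun a => by
    constructor
    · rintro ⟨h1, h2⟩
      exact Prod.ext h1 h2
    · intro H
      rw [← H]
      exact ⟨rfl, rfl⟩)

end closure

/-! ### the finite data of a test -/

open Classical in
/-- The core of a matrix. -/
noncomputable def core' {w : ℕ} (m : Fin w → Fin w → Prop) : Gr w :=
  univ.filter (fun e => ∃ σ : Equiv.Perm (Fin w), σ e.1 = e.2 ∧ ∀ i, m i (σ i))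

/-- The finite data. -/
abbrev Dat (w N : ℕ) :=
  (Fin w → Prop) × (Fin w → Fin w → Prop) × (Fin w → Prop) × (Fin w → Fin w → Prop) ×
    (Fin w → Fin w → Prop) × (Fin N → Option (Fin w)) × (Fin N → Option (Fin w)) ×
    (Fin N → Option (Fin w))

/-- The data of a test. -/
def dat {w N : ℕ} (P : Set ℕ) (le : ℕ → ℕ → Prop) (n : ℕ) (l X l' : Lev w N) : Dat w N :=
  (fun i => X.1 i ∈ P, fun i j => le (X.1 i) (X.1 j), fun i => X.1 i = n,
    fun i j => le (l.1 i) (X.1 j), fun i j => le (X.1 i) (l'.1 j), l.2, X.2, l'.2)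

/-- The predicate on the finite data. -/
def FQ {w N : ℕ} (Good : Gr w → (Fin w → Fin w → ℕ) → Prop) (d : Dat w N) : Prop :=
  ((∀ i, d.1 i) ∧ ∀ i j, i ≠ j → ¬ d.2.1 i j) ∧ (∃ i, d.2.2.1 i) ∧
  (∀ a, ∃ b, d.2.2.2.1 a b) ∧ (∀ a, ∃ b, d.2.2.2.2.1 a b) ∧
  (∀ c x, d.2.2.2.2.2.2.1 c = some x → ∃ a b, d.2.2.2.2.2.1 c = some a ∧
    d.2.2.2.2.2.2.2 c = some b ∧ (a, x) ∈ core' d.2.2.2.1 ∧ (x, b) ∈ core' d.2.2.2.2.1) ∧
  Good (core' d.2.2.2.1) (cnt d.2.2.2.2.2.1 d.2.2.2.2.2.2.1) ∧
  Good (core' d.2.2.2.2.1) (cnt d.2.2.2.2.2.2.1 d.2.2.2.2.2.2.2)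

theorem Q_iff {w N : ℕ} (Good : Gr w → (Fin w → Fin w → ℕ) → Prop) (P : Set ℕ)
    (le : ℕ → ℕ → Prop) (n : ℕ) (l X l' : Lev w N) :
    Q Good P le n l X l' ↔ FQ Good (dat P le n l X l') := by
  constructor
  · rintro ⟨h1, h2, h3, h4, h5, h6, h7⟩
    exact ⟨h1, h2, h3, h4, h5, h6, h7⟩
  · rintro ⟨h1, h2, h3, h4, h5, h6, h7⟩
    exact ⟨h1, h2, h3, h4, h5, h6, h7⟩

section main

variable {w N : ℕ} {α : Type} [Primcodable α]

theorem comp_fst1 {f : α → Lev w N} (hf : Computable f) (i : Fin w) :
    Computable (fun a => (f a).1 i) :=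
  Computable.fin_app.comp (Computable.fst.comp hf) (Computable.const i)

theorem cp_dat {P : Set ℕ} {le : ℕ → ℕ → Prop} (hP : Pool.Agent.Helper3.DW.IsCompPoset P le)
    {n : α → ℕ} {l X l' : α → Lev w N} (hn : Computable n) (hl : Computable l)
    (hX : Computable X) (hl' : Computable l') (v : Dat w N) :
    ComputablePred (fun a => dat P le (n a) (l a) (X a) (l' a) = v) := by
  have h1 : ∀ v, ComputablePred (fun a => (fun i => (X a).1 i ∈ P) = v) :=
    cp_fin1 (fun i => cp_comp hP.mem (comp_fst1 hX i))
  have h2 : ∀ v, ComputablePred (fun a => (fun i j => le ((X a).1 i) ((X a).1 j)) = v) :=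
    cp_fin2 (fun i j => cp_comp hP.rel ((comp_fst1 hX i).pair (comp_fst1 hX j)))
  have h3 : ∀ v, ComputablePred (fun a => (fun i => (X a).1 i = n a) = v) :=
    cp_fin1 (fun i => cp_eq (comp_fst1 hX i) hn)
  have h4 : ∀ v, ComputablePred (fun a => (fun i j => le ((l a).1 i) ((X a).1 j)) = v) :=
    cp_fin2 (fun i j => cp_comp hP.rel ((comp_fst1 hl i).pair (comp_fst1 hX j)))
  have h5 : ∀ v, ComputablePred (fun a => (fun i j => le ((X a).1 i) ((l' a).1 j)) = v) :=
    cp_fin2 (fun i j => cp_comp hP.rel ((comp_fst1 hX i).pair (comp_fst1 hl' j)))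
  have h6 : ∀ v, ComputablePred (fun a => (l a).2 = v) :=
    fun v => cp_eq (Computable.snd.comp hl) (Computable.const v)
  have h7 : ∀ v, ComputablePred (fun a => (X a).2 = v) :=
    fun v => cp_eq (Computable.snd.comp hX) (Computable.const v)
  have h8 : ∀ v, ComputablePred (fun a => (l' a).2 = v) :=
    fun v => cp_eq (Computable.snd.comp hl') (Computable.const v)
  exact cp_pair h1 (cp_pair h2 (cp_pair h3 (cp_pair h4 (cp_pair h5 (cp_pair h6
    (cp_pair h7 h8)))))) v

theorem cp_Q (Good : Gr w → (Fin w → Fin w → ℕ) → Prop) {P : Set ℕ} {le : ℕ → ℕ → Prop}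
    (hP : Pool.Agent.Helper3.DW.IsCompPoset P le)
    {n : α → ℕ} {l X l' : α → Lev w N} (hn : Computable n) (hl : Computable l)
    (hX : Computable X) (hl' : Computable l') :
    ComputablePred (fun a => Q Good P le (n a) (l a) (X a) (l' a)) :=
  (cp_fin (cp_dat hP hn hl hX hl') (FQ Good)).of_eq (fun _ => (Q_iff Good P le _ _ _ _).symm)

end main

/-- Row PA4a. -/
theorem PA4a : ST_PA4a := by
  intro w N Good P A le hP hA
  have hb : Computable (fun t : (St w N × ℕ) × Ch w N => t.2) := Computable.snd
  have hs : Computable (fun t : (St w N × ℕ) × Ch w N => t.1.1) :=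
    Computable.fst.comp Computable.fst
  have hn : Computable (fun t : (St w N × ℕ) × Ch w N => t.1.2) :=
    Computable.snd.comp Computable.fst
  have h1 : Computable (fun t : (St w N × ℕ) × Ch w N => t.2.1) := Computable.fst.comp hb
  have g1 : Computable (fun t : (St w N × ℕ) × Ch w N => t.2.2) := Computable.snd.comp hb
  have h2 : Computable (fun t : (St w N × ℕ) × Ch w N => t.2.2.1) := Computable.fst.comp g1
  have g2 : Computable (fun t : (St w N × ℕ) × Ch w N => t.2.2.2) := Computable.snd.comp g1
  have h3 : Computable (fun t : (St w N × ℕ) × Ch w N => t.2.2.2.1) := Computable.fst.comp g2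
  have g3 : Computable (fun t : (St w N × ℕ) × Ch w N => t.2.2.2.2) := Computable.snd.comp g2
  have h4 : Computable (fun t : (St w N × ℕ) × Ch w N => t.2.2.2.2.1) := Computable.fst.comp g3
  have h5 : Computable (fun t : (St w N × ℕ) × Ch w N => t.2.2.2.2.2) := Computable.snd.comp g3
  have hlist : Computable (fun t : (St w N × ℕ) × Ch w N =>
      t.2.1 ++ t.2.2.1 :: t.2.2.2.2.1 :: t.2.2.2.2.2) :=
    Primrec.list_append.to_comp.comp h1 (Primrec.list_cons.to_comp.comp h2
      (Primrec.list_cons.to_comp.comp h4 h5))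
  exact cp_imp (cp_comp hA hn) (cp_and (cp_eq hs hlist) (cp_Q Good hP hn h2 h3 h4))

end Pool.Agent.Helper83.PL
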